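import Pool.Agent.H4.GG.Ind2
import Pool.Agent.H4.GG.Sharp

/-!
# Independence of the central orders in the global Gan-Gross-Prasad conjecture

Condition (i) of Q1 asks for `L^S(1/2, π_V ⊠ π_W) ≠ 0`.  Which part of the Satake classes of `π_V` and `π_W`, and which
other L-functions of them, know about this?  We study tempered families `P = (P_p)` of classes over `ℚ`.  `X` is
the space of the classes, `ev i p x` are the eigenvalues of the `i`-th representation at the class `x` (possibly
twisted by something depending on `p`, and zero at the bad primes), and `LEul` is the Euler product.  `Thin c T`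
says that `T` has `c ∑_{p < N} p^(-1/2) + O(N^(1/4))` elements below `N`, about `2 c √N / log N`.

1. **Mixing.**  For any two families `P`, `Q` and any `c` there is such a set `T` with the following property.  Let `A`
be `Q` on `T` and `P` outside `T`.  Then for all representations at once
`L(s, A) = L(s, P) (L(s + 1/2, Q) / L(s + 1/2, P))^c e^g(s)`, with `g` holomorphic in `Re s > 1/4`; so the
continuation crosses the critical line, and
`ord_s L(A) = ord_s L(P) + c (ord_{s+1/2} L(Q) - ord_{s+1/2} L(P))` for `Re s > 1/4`.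

2. **Independence.**  Let `X` be compact with a probability measure `μ` (the compact form of the dual group with
its Haar measure, if the Galois action is trivial) such that the traces of the representations `ρ_i` are
continuous, orthonormal and orthogonal to the constants (as are the characters of the non-trivial irreducible
representations), and let integers `r_i`, almost all zero, be given such that `∑ r_i tr ρ_i` is real.  For every
`c ≥ ∑ |r_i| dim ρ_i`, `c ≥ 1`, there are a set `T`, `Thin c T`, and a family `A`, equal to `P` outside `T`, such that for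
every `i` for which `L(s, P, ρ_i)` continues to `Re s > 1/4` without zeros and poles on `Re s = 1`,
`L(s, A, ρ_i)` continues to `Re s > 1/4`, its order at `1/2` is that of `L(s, P, ρ_i)` plus `r_i`, and all its other
orders in `Re s ≥ 1/2` are those of `L(s, P, ρ_i)`.  The orders in `Re s ≥ 1/2` of all twists by a given countable
family of Euler products without zeros and poles on `Re s = 1` (Dirichlet characters, cuspidal representations)
do not change, also at `1/2`.
So the central order of the L-function of an irreducible representation, for example of `R = St ⊗ St`, is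
independent of the Satake classes outside `T`, of the zeros and poles in `Re s ≥ 1/2` and the central orders of
the L-functions of all the other irreducible representations and of all the twists.

3. **The Gan-Gross-Prasad L-functions over `ℚ`** (`E = F = ℚ`, the even-dimensional space of dimension `2 a ≥ 4` and
of any discriminant, the odd-dimensional one of dimension `2 b + 1 ≥ 3`, `S` the bad primes).  Here nothing is supposed
about the other L-functions: for every integer `r` there are `T`, `Thin |r| T`, and `A`, equal to `P` outside `T` (in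
the proof `A_p` is one explicit class for `p ∈ T`), such that, if `L^S(s, P, R)` continues to `Re s > 1/4` without
zeros and poles on `Re s = 1` (this holds for the Satake classes of tempered cuspidal `π_V`, `π_W` if their
transfers to general linear groups are known, as for quasi-split groups by Arthur), the same is true of
`L^S(s, A, R)`, the order at `1/2` is changed by `r`, and no other order in `Re s ≥ 1/2`; nor are those of the twists.

4. **Sharpness.**  A change of the classes at a set `T` of primes with `∑_{p ∈ T} p^(-1/2) < ∞` does not change any order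
in `Re s ≥ 1/2`.

Proof of 1.  `T` contains `p` with probability `c p^(-1/2)`; it is chosen greedily such that a weighted sum of squares
of the errors in the sums over `p < N`, for all the eigenvalues and representations at once, grows not faster
than the variance `O(√N)`.  So all these errors are `O(N^(1/4))`, and the terms of higher degree matter only for
`p ∈ T`.  For 2, `Q` has the law `(1 - ∑ r_i tr ρ_i / c) μ`.
-/

set_option autoImplicit false

namespace Pool.Agent.Results.MP_41920c_nt.CentralOrders

open Pool.Agent.H4.GG Pool.Agent.H70.CS MeasureTheory ComplexConjugate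

/-- **Independence of the central orders.** -/
theorem result :
    (∀ (X I : Type) [Countable I] (K : I → Type) [∀ i, Fintype (K i)] (ev : ∀ i, Nat.Primes → X → K i → ℂ),
      (∀ i p x k, ‖ev i p x k‖ ≤ 1) → ∀ (P Q : Nat.Primes → X) (c : ℕ),
      ∃ T : Set Nat.Primes, Thin c T ∧
        ∀ A : Nat.Primes → X, (∀ p, p ∈ T → A p = Q p) → (∀ p, p ∉ T → A p = P p) → ∀ i,
          (∃ g : ℂ → ℂ, DifferentiableOn ℂ g (HP (1 / 4)) ∧ ∀ s : ℂ, 1 < s.re →
            LEul (fun p => ev i p (A p)) s = LEul (fun p => ev i p (P p)) s *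
              (LEul (fun p => ev i p (Q p)) (s + 1 / 2) / LEul (fun p => ev i p (P p)) (s + 1 / 2)) ^ c *
              Complex.exp (g s)) ∧
          ∀ FP FQ : ℂ → ℂ, IsCont FP (LEul fun p => ev i p (P p)) → MeromorphicOn FQ (HP (3 / 4)) →
            (∀ s : ℂ, 1 < s.re → FQ s = LEul (fun p => ev i p (Q p)) s) →
            ∃ G : ℂ → ℂ, IsCont G (LEul fun p => ev i p (A p)) ∧ ∀ s : ℂ, 1 / 4 < s.re →
              meromorphicOrderAt G s = meromorphicOrderAt FP s +
                c * (meromorphicOrderAt FQ (s + 1 / 2) - meromorphicOrderAt FP (s + 1 / 2))) ∧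
    (∀ (X : Type) [TopologicalSpace X] [CompactSpace X] [MeasurableSpace X] [BorelSpace X] (μ : Measure X)
      [IsProbabilityMeasure μ] (I : Type) [Countable I] (m : I → ℕ) (ev : ∀ i, X → Fin (m i) → ℂ),
      (∀ i x k, ‖ev i x k‖ ≤ 1) → (∀ i, Continuous (tr ev i)) → (∀ i, ∫ x, tr ev i x ∂μ = 0) →
      (∀ i, ∫ x, tr ev i x * conj (tr ev i x) ∂μ = 1) →
      (∀ i k, i ≠ k → ∫ x, tr ev i x * conj (tr ev k x) ∂μ = 0) →
      ∀ (S : Finset Nat.Primes) (P : Nat.Primes → X) (J : Type) [Countable J] (d : J → ℕ)
        (B : ∀ j, Nat.Primes → Fin (d j) → ℂ), (∀ j p k, ‖B j p k‖ ≤ 1) →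
      ∀ r : I →₀ ℤ,
        (∀ x, conj (∑ i ∈ r.support, (r i : ℂ) * tr ev i x) = ∑ i ∈ r.support, (r i : ℂ) * tr ev i x) →
      ∀ c : ℕ, 0 < c → ∑ i ∈ r.support, (r i).natAbs * m i ≤ c →
      ∃ (T : Set Nat.Primes) (A : Nat.Primes → X), Thin c T ∧ (∀ p, p ∉ T → A p = P p) ∧
        (∀ i (F : ℂ → ℂ), IsCont F (LX S ev P i) → (∀ s : ℂ, s.re = 1 → meromorphicOrderAt F s = 0) →
          ∃ G : ℂ → ℂ, IsCont G (LX S ev A i) ∧
            meromorphicOrderAt G (1 / 2) = meromorphicOrderAt F (1 / 2) + r i ∧
            ∀ s : ℂ, 1 / 2 ≤ s.re → s ≠ 1 / 2 → meromorphicOrderAt G s = meromorphicOrderAt F s) ∧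
        ∀ i j (E F : ℂ → ℂ), IsCont E (LEul (B j)) → IsCont F (LXB S ev P (B j) i) →
          (∀ s : ℂ, s.re = 1 → meromorphicOrderAt E s = 0 ∧ meromorphicOrderAt F s = 0) →
          ∃ G : ℂ → ℂ, IsCont G (LXB S ev A (B j) i) ∧
            ∀ s : ℂ, 1 / 2 ≤ s.re → meromorphicOrderAt G s = meromorphicOrderAt F s) ∧
    (∀ a b : ℕ, 2 ≤ a → 1 ≤ b → ∀ (S : Finset Nat.Primes) (split : Nat.Primes → Bool)
      (P : Nat.Primes → Tor a b) (J : Type) [Countable J] (d : J → ℕ)
      (B : ∀ j, Nat.Primes → Fin (d j) → ℂ), (∀ j p k, ‖B j p k‖ ≤ 1) → ∀ r : ℤ,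
      ∃ (T : Set Nat.Primes) (A : Nat.Primes → Tor a b), Thin r.natAbs T ∧ (∀ p, p ∉ T → A p = P p) ∧
        (∀ F : ℂ → ℂ, IsCont F (LR S split P) → (∀ s : ℂ, s.re = 1 → meromorphicOrderAt F s = 0) →
          ∃ G : ℂ → ℂ, IsCont G (LR S split A) ∧
            meromorphicOrderAt G (1 / 2) = meromorphicOrderAt F (1 / 2) + r ∧
            ∀ s : ℂ, 1 / 2 ≤ s.re → s ≠ 1 / 2 → meromorphicOrderAt G s = meromorphicOrderAt F s) ∧
        ∀ j (E F : ℂ → ℂ), IsCont E (LEul (B j)) → IsCont F (LRB S split P (B j)) →
          (∀ s : ℂ, s.re = 1 → meromorphicOrderAt E s = 0 ∧ meromorphicOrderAt F s = 0) →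
          ∃ G : ℂ → ℂ, IsCont G (LRB S split A (B j)) ∧
            ∀ s : ℂ, 1 / 2 ≤ s.re → meromorphicOrderAt G s = meromorphicOrderAt F s) ∧
    (∀ (K : Type) [Fintype K] (e e' : Nat.Primes → K → ℂ), (∀ p k, ‖e p k‖ ≤ 1) → (∀ p k, ‖e' p k‖ ≤ 1) →
      ∀ T : Set Nat.Primes, Summable (T.indicator fun p : Nat.Primes => ((p : ℕ) : ℝ) ^ (-(1 / 2) : ℝ)) →
      (∀ p, p ∉ T → e p = e' p) → ∀ F F' : ℂ → ℂ, IsCont F (LEul e) → IsCont F' (LEul e') →
      ∀ s : ℂ, 1 / 2 ≤ s.re → meromorphicOrderAt F s = meromorphicOrderAt F' s) := by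
  refine ⟨?_, ?_, ?_, ?_⟩
  · intro X I _ K _ ev hev P Q c
    obtain ⟨T, hT, h⟩ := mixing K ev hev P Q c
    refine ⟨T, hT, fun A hA1 hA2 i => ⟨h A hA1 hA2 i, fun FP FQ hFP hFQ hFQ2 => ?_⟩⟩
    obtain ⟨g, hg, hgA⟩ := h A hA1 hA2 i
    exact mix_order (eP := fun p => ev i p (P p)) (eQ := fun p => ev i p (Q p)) (eA := fun p => ev i p (A p))
      (fun p k => hev _ _ _ _) hg hgA hFP hFQ hFQ2
  · intro X _ _ _ _ μ _ I _ m ev hev hcont h0 horth horth' S P J _ d B hB r hr c hc0 hrc
    exact independence μ hev hcont h0 horth horth' S P d B hB r hr c hc0 hrc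
  · intro a b ha hb S split P J _ d B hB r
    exact free_orders ha hb S split P d B hB r
  · intro K _ e e' he he' T hT hee F F' hF hF' s hs
    exact sharp he he' hT hee hF hF' s hs

end Pool.Agent.Results.MP_41920c_nt.CentralOrders
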